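import Pool.Agent.Helper93.TH3.StD

/-!
# Project TH (levels `2 * 3^n`), module REL: the relations between the plane functions of a symbol
-/

set_option autoImplicit false

namespace Pool.Agent.Helper51.TH3

open Pool.Agent.Helper14.CV (Homog EqC act Tl StFar StFex)
open Pool.Agent.Helper78.W3 (tr)
open Pool.Agent.Helper93.TLH (HTy SymH)
open Pool.Agent.Helper93.TH3

/-- Scalar multiples of the vector do not matter. -/
private lemma rel_sc {R : Type} {G : ℤ → ℤ → R} (hG : Homog G) (X Y k u1 u2 : ℤ) (hk : k ≠ 0)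
    (hu : u1 ≠ 0 ∨ u2 ≠ 0) :
    G (k * u1 + 3 * X * (k * u2)) (3 * Y * (k * u1) + (1 + 9 * X * Y) * (k * u2)) =
      G (u1 + 3 * X * u2) (3 * Y * u1 + (1 + 9 * X * Y) * u2) := by
  have hne : (1 * u1 + 3 * X * u2 ≠ 0 ∨ (3 * Y) * u1 + (1 + 9 * X * Y) * u2 ≠ 0) :=
    Pool.Agent.Helper14.CV.ne_zero_of_det (a := 1) (b := 3 * X) (c := 3 * Y) (d := 1 + 9 * X * Y)
      (by ring_nf; norm_num) hu
  rw [one_mul] at hne
  rw [← hG k _ _ hk hne]
  congr 1 <;> ring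

/-- REL: the plane functions of a symbol satisfy the relations. -/
theorem hRel (ht : TTre) : TRel := by
  intro R _ r s G hG
  have k1 : (pfT G 1 : ZMod (3 ^ r) → ZMod (3 ^ s) → R) = edgeT 1 0 1 1 G := by
    funext x y; rfl
  have k2 : (pfT G 2 : ZMod (3 ^ r) → ZMod (3 ^ s) → R) = edgeT 1 0 (-1) 1 G := by
    funext x y; rfl
  have k3 : (pfT G 3 : ZMod (3 ^ r) → ZMod (3 ^ s) → R) = edgeT 1 2 0 1 G := by
    funext x y; rfl
  have k4 : (pfT G 4 : ZMod (3 ^ r) → ZMod (3 ^ s) → R) = edgeT (-1) 2 0 1 G := by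
    funext x y; rfl
  have kk : (kT (fun i => (pfT G i : ZMod (3 ^ r) → ZMod (3 ^ s) → R))) = edgeT 1 1 1 2 G := by
    funext x y
    show edgeT 1 0 0 1 G x y - edgeT 1 0 1 1 G x y - edgeT 1 2 0 1 G x y = _
    unfold edgeT
    abel
  have kk' : (kT' (fun i => (pfT G i : ZMod (3 ^ r) → ZMod (3 ^ s) → R))) =
      edgeT (-1) 1 (-1) 2 G := by
    funext x y
    show edgeT 1 0 0 1 G x y - edgeT 1 0 (-1) 1 G x y - edgeT (-1) 2 0 1 G x y = _
    unfold edgeT
    abel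
  refine ⟨fun x y => ?_, fun x y => ?_, fun x y => ?_⟩
  · have h1 := ht R _ r s G hG 4 (-1) 2 (-4) 1 1 1 2 (by unfold HTy; decide) (by simp) (by simp) x y
    have n1 := rel_sc hG.1 (x.val : ℤ) (yT x y) (-2) 1 1 (by norm_num) (by simp)
    rw [kk, ← h1]
    unfold edgeT
    norm_num at n1 ⊢
    rw [n1]
    abel
  · have h1 := ht R _ r s G hG 4 1 (-2) (-4) (-1) 1 (-1) 2 (by unfold HTy; decide) (by simp)
      (by simp) x y
    have n1 := rel_sc hG.1 (x.val : ℤ) (yT x y) (-2) (-1) 1 (by norm_num) (by simp)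
    rw [kk', ← h1]
    unfold edgeT
    norm_num at n1 ⊢
    rw [n1]
    abel
  · have h1 := ht R _ r s G hG 1 1 0 1 1 0 (-1) 1 (by unfold HTy; decide) (by simp) (by simp) x y
    have h2 := ht R _ r s G hG 8 (-1) 2 (-2) 1 2 0 1 (by unfold HTy; decide) (by simp) (by simp) x y
    have h3 := ht R _ r s G hG 10 1 2 2 (-1) 2 0 1 (by unfold HTy; decide) (by simp) (by simp) x y
    have n1 := rel_sc hG.1 (x.val : ℤ) (yT x y) 2 1 1 (by norm_num) (by simp)
    have n2 := rel_sc hG.1 (x.val : ℤ) (yT x y) (-1) 3 2 (by norm_num) (by simp)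
    have n3 := rel_sc hG.1 (x.val : ℤ) (yT x y) (-2) 2 1 (by norm_num) (by simp)
    show -(pfT G 1 : ZMod (3 ^ r) → ZMod (3 ^ s) → R) x y + tr 1 1 0 1 (pfT G 2) x y -
      tr 8 (-1) 2 (-2) (pfT G 3) x y + tr 10 1 2 2 (pfT G 4) x y = 0
    rw [k1, k2, k3, k4, ← h1, ← h2, ← h3]
    unfold edgeT
    norm_num at n1 n2 n3 ⊢
    rw [n1, n2, n3]
    abel

end Pool.Agent.Helper51.TH3
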